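import Mathlib
import Pool.Agent.helper12.TY.Spec

/-!
# Row ty:Y2A (MP_baa4d7_al): a normal subgroup of `p`-power index, cyclic modulo a subgroup which fixes all pairs
-/

set_option autoImplicit false

namespace Pool.Agent.TY

open Pool.Agent.helper58.DC Pool.Agent.DI Pool.Agent.GR Pool.Agent.OB Pool.Agent.TZ

open scoped Classical in
theorem Y2A_swap {A : Type} [Group A] [Fintype (Subgroup A)] (S : ℤ → Subgroup A → ℤ)
    (hS : ∀ V : Subgroup A, {d : ℤ | S d V ≠ 0}.Finite) (Q : Subgroup A → Prop) :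
    ∑ᶠ d : ℤ, ∑ᶠ V : {V : Subgroup A // Q V}, S d V.1 =
      ∑ V ∈ Finset.univ.filter Q, ∑ᶠ d : ℤ, S d V := by
  have h1 : ∀ d : ℤ, ∑ᶠ V : {V : Subgroup A // Q V}, S d V.1 = ∑ V ∈ Finset.univ.filter Q, S d V := by
    intro d
    rw [finsum_eq_sum_of_fintype]
    rw [Finset.sum_subtype (Finset.univ.filter Q) (p := Q) (fun x => by simp) (fun V => S d V)]
  rw [finsum_congr h1]
  exact finsum_sum_comm (Finset.univ.filter Q) (fun d V => S d V) (fun V _ => hS V)

theorem Y2A (hYM1 : YM1_stmt) (hYFR : YFR_stmt) (hIPG : Pool.Agent.TZ.IPG_stmt)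
    (hST : Pool.Agent.helper58.DC.ST_stmt) (hFN : Pool.Agent.helper58.DC.FN_stmt) : Y2A_stmt := by
  intro p c M hS G E A _ _ _ _ _ X C N _ hCi s hsC hCs hs hJ hO χ hχ hF D x hD z hz hzc hzn
  classical
  have hA : Finite A := Finite.of_surjective X.proj X.proj_surjective
  have hpp : Fact p.Prime := ⟨hS.1⟩
  have hFS : Fintype (Subgroup A) := Fintype.ofFinite _
  by_cases hst : Stable X M χ
  · have h1 := hIPG p M G E A X C hCi χ hχ hst
    have hfin : ∀ V : Subgroup A, {d : ℤ | altSum X p M χ d V ≠ 0}.Finite := fun V =>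
      hFN G E A X p M χ V
    rw [Y2A_swap (fun d V => altSum X p M χ d V) hfin (fun V : Subgroup A => C ≤ V)] at h1
    have h2 := hYM1 p c M hS G E A X (Subgroup.zpowers s) inferInstance
      (by rw [Nat.card_zpowers]; exact hs) hO χ hχ D x hD z hz hzc hzn
    rw [Nat.card_zpowers] at h2
    have h3 : ∑ᶠ V : {V : Subgroup A // Subgroup.zpowers s ≤ V}, aS X p M χ V.1 =
        ∑ V ∈ Finset.univ.filter (fun V : Subgroup A => Subgroup.zpowers s ≤ V), aS X p M χ V := by
      rw [finsum_eq_sum_of_fintype]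
      rw [Finset.sum_subtype (Finset.univ.filter fun V : Subgroup A => Subgroup.zpowers s ≤ V)
        (p := fun V : Subgroup A => Subgroup.zpowers s ≤ V) (fun x => by simp)
        (fun V => aS X p M χ V)]
    have h4 : ∑ V ∈ Finset.univ.filter (fun V : Subgroup A => C ≤ V), ∑ᶠ d : ℤ, altSum X p M χ d V =
        ∑ V ∈ Finset.univ.filter (fun V : Subgroup A => Subgroup.zpowers s ≤ V), aS X p M χ V := by
      apply Finset.sum_subset
      · intro V hV
        rw [Finset.mem_filter] at hV ⊢
        exact ⟨Finset.mem_univ _, (Subgroup.zpowers_le.2 hsC).trans hV.2⟩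
      · intro V hV hV2
        rw [Finset.mem_filter] at hV hV2
        have hN : ¬ N ≤ V := by
          intro hN
          exact hV2 ⟨Finset.mem_univ _, hCs.trans (sup_le hV.2 hN)⟩
        have h0 : ∀ d : ℤ, altSum X p M χ d V = 0 := fun d =>
          (hYFR G E A X p M χ N hF).2 d V hN
        rw [finsum_congr h0, finsum_zero]
    rw [h4] at h1
    rw [h3] at h2
    have hpr : Prime (p : ℤ) := Nat.prime_iff_prime_int.1 hS.1
    have h5 : (p : ℤ) ∣ ∑ V ∈ Finset.univ.filter (fun V : Subgroup A => Subgroup.zpowers s ≤ V),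
        aS X p M χ V := by
      by_contra h5
      have h6 : IsCoprime ((p : ℤ) ^ (c + 1))
          (∑ V ∈ Finset.univ.filter (fun V : Subgroup A => Subgroup.zpowers s ≤ V),
            aS X p M χ V) :=
        ((Prime.coprime_iff_not_dvd hpr).2 h5).pow_left
      have h7 := h6.dvd_of_dvd_mul_right h2
      apply hJ
      exact_mod_cast h7
    exact (dvd_sub_left h5).mp h1
  · have h0 : ∀ d : ℤ, altSum X p M χ d ⊤ = 0 := by
      intro d
      by_contra h
      exact hst (hST G E A X p M χ hχ d h)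
    unfold aS
    rw [finsum_congr h0, finsum_zero]
    exact dvd_zero _

end Pool.Agent.TY
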